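import Pool.Agent.P8H38.SB.Stm

/-!
# Project SB (helper38), package FOU: a formula of Fourier analysis
-/

set_option autoImplicit false

open Filter Topology MeasureTheory Set
open scoped FourierTransform SchwartzMap

namespace Pool.Agent.P8H84.SB

open Pool.Agent.P8H38.SB

theorem scaled (hKK : S_KK) (ξ : ℝ) (hξ : 0 < ξ) :
    IntegrableOn (fun x : ℝ => (1 - Real.cos (x * ξ)) / x ^ 2) (Ioi 0) ∧
      ∫ x in Ioi (0 : ℝ), (1 - Real.cos (x * ξ)) / x ^ 2 = Real.pi / 2 * ξ := by
  obtain ⟨h1, h2⟩ := hKK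
  have h3 := (integrableOn_Ioi_comp_mul_right_iff (fun x : ℝ => (1 - Real.cos x) / x ^ 2) 0 hξ).2
    (by rw [zero_mul]; exact h1)
  have h4 := integral_comp_mul_right_Ioi (fun x : ℝ => (1 - Real.cos x) / x ^ 2) 0 hξ
  rw [zero_mul, h2, smul_eq_mul] at h4
  have e : ∀ x : ℝ, (1 - Real.cos (x * ξ)) / x ^ 2 = ξ ^ 2 * ((1 - Real.cos (x * ξ)) / (x * ξ) ^ 2) := by
    intro x
    rcases eq_or_ne x 0 with rfl | hx
    · simp
    · field_simp
  constructor
  · have h5 : IntegrableOn (fun x : ℝ => ξ ^ 2 * ((1 - Real.cos (x * ξ)) / (x * ξ) ^ 2)) (Ioi 0) :=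
      h3.const_mul (ξ ^ 2)
    refine h5.congr_fun (fun x _ => (e x).symm) measurableSet_Ioi
  · rw [setIntegral_congr_fun measurableSet_Ioi (fun x _ => e x), integral_const_mul, h4]
    field_simp

theorem fou (hKK : S_KK) : S_FOU := by
  intro φ hφ hφc hφe
  have hpi : 0 < Real.pi := Real.pi_pos
  obtain ⟨h, hh⟩ : ∃ h : ℝ → ℂ, h = fun x => ((x ^ 2 * φ x : ℝ) : ℂ) := ⟨_, rfl⟩
  have hh1 : ContDiff ℝ ((⊤ : ℕ∞) : WithTop ℕ∞) h := by
    rw [hh]
    exact Complex.ofRealCLM.contDiff.comp ((contDiff_id.pow 2).mul hφ)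
  have hh2 : HasCompactSupport h := by
    have h1 : HasCompactSupport (fun x => x ^ 2 * φ x) := hφc.mul_left
    rw [hh]
    exact h1.comp_left (g := fun x : ℝ => (x : ℂ)) (by simp)
  have hhe : ∀ x, h (-x) = h x := by
    intro x
    rw [hh]
    simp only [hφe]
    norm_num
  obtain ⟨f, hf⟩ : ∃ f : 𝓢(ℝ, ℂ), (f : ℝ → ℂ) = h := ⟨hh2.toSchwartzMap hh1, rfl⟩
  obtain ⟨Ff, hFf⟩ : ∃ Ff : 𝓢(ℝ, ℂ), (Ff : ℝ → ℂ) = 𝓕 h := by
    refine ⟨𝓕 f, ?_⟩
    rw [SchwartzMap.fourier_coe, hf]
  have hFe : ∀ v, Ff (-v) = Ff v := by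
    intro v
    have h1 := Real.fourier_comp_linearIsometry (LinearIsometryEquiv.neg ℝ (E := ℝ)) h v
    have h2 : h ∘ (LinearIsometryEquiv.neg ℝ (E := ℝ)) = h := by
      funext x
      exact hhe x
    rw [h2] at h1
    rw [hFf]
    exact h1.symm
  have hFi : Integrable (Ff : ℝ → ℂ) := Ff.integrable
  have hFc : Continuous (Ff : ℝ → ℂ) := Ff.continuous
  -- inversion
  have hinv : ∀ x : ℝ, h x = ∫ v : ℝ, Complex.exp (((2 * Real.pi * (v * x) : ℝ) : ℂ) * Complex.I) * Ff v := by
    intro x
    have h1 : 𝓕⁻ (𝓕 h) = h := by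
      have h2 : Integrable h := by
        rw [← hf]
        exact f.integrable
      exact hh1.continuous.fourierInv_fourier_eq h2 (by rw [← hFf]; exact hFi)
    have h2 := Real.fourierInv_eq' (𝓕 h) x
    rw [h1, ← hFf] at h2
    rw [h2]
    refine integral_congr_ae (Eventually.of_forall fun v => ?_)
    simp only [smul_eq_mul]
    congr 3
    simp [mul_comm]
  obtain ⟨G, hG⟩ : ∃ G : ℝ → ℝ, G = fun v => (Ff v).re := ⟨_, rfl⟩
  have hGc : Continuous G := by
    rw [hG]
    exact Complex.continuous_re.comp hFc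
  have hGi : Integrable G := by
    rw [hG]
    exact hFi.re
  have hGe : ∀ v, G (-v) = G v := by
    intro v
    rw [hG]
    simp only [hFe]
  have hexp : ∀ x : ℝ, Integrable (fun v : ℝ => Complex.exp (((2 * Real.pi * (v * x) : ℝ) : ℂ) * Complex.I) * Ff v) := by
    intro x
    refine hFi.bdd_mul (c := 1) ?_ (Eventually.of_forall fun v => ?_)
    · refine Continuous.aestronglyMeasurable ?_
      fun_prop
    · rw [Complex.norm_exp_ofReal_mul_I]
  have hcos : ∀ x : ℝ, x ^ 2 * φ x = ∫ v : ℝ, Real.cos (2 * Real.pi * (v * x)) * G v := by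
    intro x
    have h1 := hinv x
    have h2 : h x = ∫ v : ℝ, Complex.exp (((2 * Real.pi * (-v * x) : ℝ) : ℂ) * Complex.I) * Ff v := by
      rw [h1, ← integral_neg_eq_self]
      refine integral_congr_ae (Eventually.of_forall fun v => ?_)
      simp only [hFe]
    have h3 : h x + h x = ∫ v : ℝ, (((2 * (Real.cos (2 * Real.pi * (v * x))) : ℝ) : ℂ) * Ff v) := by
      nth_rewrite 1 [h1]
      rw [h2, ← integral_add (hexp x) (by
        have h4 := (hexp x).comp_neg
        refine h4.congr (Eventually.of_forall fun v => ?_)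
        simp only [hFe])]
      refine integral_congr_ae (Eventually.of_forall fun v => ?_)
      try simp only
      rw [← add_mul]
      congr 1
      have e1 : (((2 * Real.pi * (-v * x) : ℝ) : ℂ) * Complex.I) = -(((2 * Real.pi * (v * x) : ℝ) : ℂ) * Complex.I) := by
        push_cast
        ring
      rw [e1]
      push_cast
      rw [Complex.two_cos]
      congr 2
      ring
    have h4 : (h x + h x).re = ∫ v : ℝ, 2 * Real.cos (2 * Real.pi * (v * x)) * G v := by
      rw [h3]
      have h5 : Integrable (fun v : ℝ => (((2 * (Real.cos (2 * Real.pi * (v * x))) : ℝ) : ℂ) * Ff v)) := by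
        refine hFi.bdd_mul (c := 2) ?_ (Eventually.of_forall fun v => ?_)
        · refine Continuous.aestronglyMeasurable ?_
          fun_prop
        · rw [Complex.norm_real, Real.norm_eq_abs, abs_mul, abs_two]
          have := Real.abs_cos_le_one (2 * Real.pi * (v * x))
          linarith
      have h6 := integral_re h5
      change ∫ v : ℝ, (((2 * (Real.cos (2 * Real.pi * (v * x))) : ℝ) : ℂ) * Ff v).re =
        (∫ v : ℝ, (((2 * (Real.cos (2 * Real.pi * (v * x))) : ℝ) : ℂ) * Ff v)).re at h6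
      rw [← h6]
      refine integral_congr_ae (Eventually.of_forall fun v => ?_)
      try simp only
      rw [Complex.re_ofReal_mul, hG]
    have h5 : (h x + h x).re = 2 * (x ^ 2 * φ x) := by
      rw [hh, Complex.add_re, Complex.ofReal_re]
      ring
    have h6 : ∫ v : ℝ, 2 * Real.cos (2 * Real.pi * (v * x)) * G v =
        2 * ∫ v : ℝ, Real.cos (2 * Real.pi * (v * x)) * G v := by
      rw [← integral_const_mul]
      refine integral_congr_ae (Eventually.of_forall fun v => ?_)
      try simp only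
      ring
    rw [h5, h6] at h4
    linarith
  -- the function k
  obtain ⟨k, hk⟩ : ∃ k : ℝ → ℝ, k = fun ξ => -(1 / Real.pi) * G (ξ / (2 * Real.pi)) := ⟨_, rfl⟩
  have hkc : Continuous k := by
    rw [hk]
    exact continuous_const.mul (hGc.comp (continuous_id.div_const _))
  have h2pi : (2 * Real.pi) ≠ 0 := by positivity
  have hki : Integrable k := by
    rw [hk]
    exact (hGi.comp_div h2pi).const_mul _
  have hxk : Integrable (fun ξ => ξ * k ξ) := by
    have h1 : Integrable (fun v : ℝ => v * G v) := by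
      have h2 := SchwartzMap.integrable_pow_mul volume Ff 1
      refine h2.mono' (continuous_id.mul hGc).aestronglyMeasurable (Eventually.of_forall fun v => ?_)
      rw [norm_mul, pow_one]
      refine mul_le_mul_of_nonneg_left ?_ (norm_nonneg _)
      rw [hG]
      exact Complex.abs_re_le_norm _
    have h2 := (h1.comp_div h2pi).const_mul (-(1 / Real.pi) * (2 * Real.pi))
    refine h2.congr (Eventually.of_forall fun ξ => ?_)
    rw [hk]
    try simp only
    field_simp
  have hhalf : ∀ x : ℝ, x ^ 2 * φ x = - ∫ ξ in Ioi (0 : ℝ), k ξ * Real.cos (x * ξ) := by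
    intro x
    rw [hcos x]
    have h1 : ∫ v : ℝ, Real.cos (2 * Real.pi * (v * x)) * G v =
        2 * ∫ v in Ioi (0 : ℝ), Real.cos (2 * Real.pi * (v * x)) * G v := by
      rw [← integral_comp_abs (f := fun v => Real.cos (2 * Real.pi * (v * x)) * G v)]
      refine integral_congr_ae (Eventually.of_forall fun v => ?_)
      try simp only
      rcases abs_choice v with hv | hv
      · rw [hv]
      · rw [hv, hGe]
        congr 1
        rw [← Real.cos_neg]
        congr 1
        ring
    rw [h1]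
    have h2 := integral_comp_mul_right_Ioi (fun ξ : ℝ => Real.cos (x * ξ) * G (ξ / (2 * Real.pi))) 0
      (show 0 < 2 * Real.pi by positivity)
    rw [zero_mul, smul_eq_mul] at h2
    have h3 : ∫ v in Ioi (0 : ℝ), Real.cos (2 * Real.pi * (v * x)) * G v =
        ∫ v in Ioi (0 : ℝ), Real.cos (x * (v * (2 * Real.pi))) * G (v * (2 * Real.pi) / (2 * Real.pi)) := by
      refine setIntegral_congr_fun measurableSet_Ioi fun v _ => ?_
      try simp only
      rw [mul_div_cancel_right₀ _ h2pi]
      congr 2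
      ring
    rw [h3, h2, ← integral_neg, ← integral_const_mul, ← integral_const_mul]
    refine setIntegral_congr_fun measurableSet_Ioi fun ξ _ => ?_
    rw [hk]
    try simp only
    field_simp
  have hkcos : ∀ x : ℝ, Integrable (fun ξ => k ξ * Real.cos (x * ξ)) := by
    intro x
    refine hki.norm.mono' (hkc.mul (Real.continuous_cos.comp (continuous_const.mul continuous_id))).aestronglyMeasurable
      (Eventually.of_forall fun ξ => ?_)
    rw [norm_mul]
    have h1 : ‖Real.cos (x * ξ)‖ ≤ 1 := Real.abs_cos_le_one _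
    have h2 := norm_nonneg (k ξ)
    nlinarith
  have hk0 : ∫ ξ in Ioi (0 : ℝ), k ξ = 0 := by
    have h1 := hhalf 0
    simp only [zero_mul, Real.cos_zero, mul_one] at h1
    norm_num at h1
    linarith
  have hmain : ∀ x : ℝ, x ^ 2 * φ x = ∫ ξ in Ioi (0 : ℝ), k ξ * (1 - Real.cos (x * ξ)) := by
    intro x
    rw [hhalf x]
    have h1 : ∫ ξ in Ioi (0 : ℝ), k ξ * (1 - Real.cos (x * ξ)) =
        (∫ ξ in Ioi (0 : ℝ), k ξ) - ∫ ξ in Ioi (0 : ℝ), k ξ * Real.cos (x * ξ) := by
      rw [← integral_sub hki.integrableOn (hkcos x).integrableOn]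
      refine setIntegral_congr_fun measurableSet_Ioi fun ξ _ => ?_
      try simp only
      ring
    rw [h1, hk0]
    ring
  refine ⟨k, hki.integrableOn, hxk.integrableOn, fun x _ => hmain x, ?_⟩
  -- Fubini
  have hFint : Integrable (Function.uncurry fun x ξ : ℝ => k ξ * ((1 - Real.cos (x * ξ)) / x ^ 2))
      ((volume.restrict (Ioi (0 : ℝ))).prod (volume.restrict (Ioi (0 : ℝ)))) := by
    rw [integrable_prod_iff']
    · constructor
      · filter_upwards [self_mem_ae_restrict measurableSet_Ioi] with ξ hξ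
        exact (scaled hKK ξ hξ).1.const_mul (k ξ)
      · have h1 : Integrable (fun ξ => ‖ξ * k ξ‖ * (Real.pi / 2)) (volume.restrict (Ioi (0 : ℝ))) :=
          (hxk.norm.mul_const _).restrict
        refine h1.congr ?_
        filter_upwards [self_mem_ae_restrict measurableSet_Ioi] with ξ hξ
        have h2 := (scaled hKK ξ hξ).2
        have h3 : ∀ x : ℝ, ‖k ξ * ((1 - Real.cos (x * ξ)) / x ^ 2)‖ = ‖k ξ‖ * ((1 - Real.cos (x * ξ)) / x ^ 2) := by
          intro x
          rw [norm_mul]
          congr 1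
          rw [Real.norm_eq_abs, abs_of_nonneg]
          have := Real.cos_le_one (x * ξ)
          exact div_nonneg (by linarith) (by positivity)
        change ‖ξ * k ξ‖ * (Real.pi / 2) = ∫ x in Ioi (0 : ℝ), ‖k ξ * ((1 - Real.cos (x * ξ)) / x ^ 2)‖
        simp_rw [h3]
        rw [integral_const_mul, h2, norm_mul, Real.norm_of_nonneg (le_of_lt (show (0 : ℝ) < ξ from hξ))]
        ring
    · refine Measurable.aestronglyMeasurable ?_
      have := hkc.measurable
      unfold Function.uncurry
      fun_prop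
  have hswap := integral_integral_swap hFint
  have e1 : ∫ x in Ioi (0 : ℝ), ∫ ξ in Ioi (0 : ℝ), k ξ * ((1 - Real.cos (x * ξ)) / x ^ 2) =
      ∫ x in Ioi (0 : ℝ), φ x := by
    refine setIntegral_congr_fun measurableSet_Ioi fun x hx => ?_
    have hx0 : x ≠ 0 := (show (0 : ℝ) < x from hx).ne'
    have h1 := hmain x
    have h2 : ∫ ξ in Ioi (0 : ℝ), k ξ * ((1 - Real.cos (x * ξ)) / x ^ 2) =
        (∫ ξ in Ioi (0 : ℝ), k ξ * (1 - Real.cos (x * ξ))) / x ^ 2 := by
      rw [← integral_div]
      refine setIntegral_congr_fun measurableSet_Ioi fun ξ _ => ?_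
      try simp only
      ring
    try simp only
    rw [h2, ← h1]
    field_simp
  have e2 : ∫ ξ in Ioi (0 : ℝ), ∫ x in Ioi (0 : ℝ), k ξ * ((1 - Real.cos (x * ξ)) / x ^ 2) =
      Real.pi / 2 * ∫ ξ in Ioi (0 : ℝ), ξ * k ξ := by
    rw [← integral_const_mul]
    refine setIntegral_congr_fun measurableSet_Ioi fun ξ hξ => ?_
    try simp only
    rw [integral_const_mul, (scaled hKK ξ hξ).2]
    ring
  rw [e1, e2] at hswap
  rw [hswap]
  field_simp

end Pool.Agent.P8H84.SB
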